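import Pool.Agent.H77.TL.ToolStm

/-!
Part TCH: the chord tuple.
-/

set_option autoImplicit false

namespace Pool.MP324

theorem tch_mid (lo hi : ℕ) (h : lo ≤ hi) (r : ℝ) (h1 : (lo : ℝ) ≤ r) (h2 : r ≤ (hi : ℝ)) :
    |r - ((Int.ofNat (Nat.div (Nat.add lo hi) 2) : ℤ) : ℝ)| ≤
      ((Nat.add (Nat.div (Nat.sub hi lo) 2) 1 : ℕ) : ℝ) := by
  have e1 : ((Int.ofNat (Nat.div (Nat.add lo hi) 2) : ℤ) : ℝ) = (((lo + hi) / 2 : ℕ) : ℝ) := rfl
  have e2 : ((Nat.add (Nat.div (Nat.sub hi lo) 2) 1 : ℕ) : ℝ) = (((hi - lo) / 2 + 1 : ℕ) : ℝ) := rfl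
  rw [e1, e2]
  obtain ⟨d, rfl⟩ : ∃ d, hi = lo + d := ⟨hi - lo, by omega⟩
  obtain ⟨q, hq | hq⟩ := Nat.even_or_odd' d
  · subst hq
    have e3 : (lo + (lo + 2 * q)) / 2 = lo + q := by omega
    have e4 : (lo + 2 * q - lo) / 2 + 1 = q + 1 := by omega
    rw [e3, e4]
    push_cast at *
    rw [abs_le]
    constructor <;> linarith
  · subst hq
    have e3 : (lo + (lo + (2 * q + 1))) / 2 = lo + q := by omega
    have e4 : (lo + (2 * q + 1) - lo) / 2 + 1 = q + 1 := by omega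
    rw [e3, e4]
    push_cast at *
    rw [abs_le]
    constructor <;> linarith

theorem tch_sub_le (a b : ℕ) (x y : ℝ) (h1 : x ≤ (a : ℝ)) (h2 : (b : ℝ) ≤ y) :
    x - y ≤ ((a - b : ℕ) : ℝ) := by
  rcases le_total b a with h | h
  · rw [Nat.cast_sub h]
    linarith
  · have : ((a - b : ℕ) : ℝ) = 0 := by
      rw [Nat.sub_eq_zero_of_le h, Nat.cast_zero]
    have h3 : (a : ℝ) ≤ (b : ℝ) := by exact_mod_cast h
    rw [this]
    linarith

theorem tch_le_sub (a b : ℕ) (x y : ℝ) (h0 : y ≤ x) (h1 : (a : ℝ) ≤ x) (h2 : y ≤ (b : ℝ)) :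
    ((a - b : ℕ) : ℝ) ≤ x - y := by
  rcases le_total b a with h | h
  · rw [Nat.cast_sub h]
    linarith
  · have : ((a - b : ℕ) : ℝ) = 0 := by
      rw [Nat.sub_eq_zero_of_le h, Nat.cast_zero]
    rw [this]
    linarith

/-- the scaled slope lies between the two divisions -/
theorem tch_slope (u v lu hu lv hv : ℕ) (fu fv : ℝ) (huv : u < v) (hm : fu ≤ fv)
    (h1 : (lu : ℝ) ≤ fu * 2 ^ 30) (h2 : fu * 2 ^ 30 ≤ (hu : ℝ)) (h3 : (lv : ℝ) ≤ fv * 2 ^ 30)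
    (h4 : fv * 2 ^ 30 ≤ (hv : ℝ)) :
    ((((lv - hu) * 1073741824) / (v - u) : ℕ) : ℝ) ≤
      (fv - fu) / ((v : ℝ) / 2 ^ 30 - (u : ℝ) / 2 ^ 30) * 2 ^ 30 ∧
    (fv - fu) / ((v : ℝ) / 2 ^ 30 - (u : ℝ) / 2 ^ 30) * 2 ^ 30 ≤
      ((((hv - lu) * 1073741824) / (v - u) + 1 : ℕ) : ℝ) := by
  have hd : (0 : ℝ) < ((v - u : ℕ) : ℝ) := by
    have : 0 < v - u := by omega
    exact_mod_cast this
  have hd' : ((v - u : ℕ) : ℝ) = (v : ℝ) - (u : ℝ) := by
    rw [Nat.cast_sub huv.le]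
  have e1 : (fv - fu) / ((v : ℝ) / 2 ^ 30 - (u : ℝ) / 2 ^ 30) * 2 ^ 30 =
      ((fv * 2 ^ 30 - fu * 2 ^ 30) * 1073741824) / ((v - u : ℕ) : ℝ) := by
    rw [hd']
    have h5 : (v : ℝ) - (u : ℝ) ≠ 0 := by
      rw [← hd']
      exact hd.ne'
    have h6 : (v : ℝ) / 2 ^ 30 - (u : ℝ) / 2 ^ 30 = ((v : ℝ) - (u : ℝ)) / 2 ^ 30 := by ring
    rw [h6]
    field_simp
    ring
  rw [e1]
  constructor
  · refine le_trans Nat.cast_div_le ?_
    refine div_le_div_of_nonneg_right ?_ hd.le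
    push_cast
    refine mul_le_mul_of_nonneg_right ?_ (by norm_num)
    exact tch_le_sub lv hu _ _ (by nlinarith) h3 h2
  · have h5 : ((hv - lu) * 1073741824 : ℕ) < ((hv - lu) * 1073741824 / (v - u) + 1) * (v - u) :=
      Nat.lt_mul_of_div_lt (Nat.lt_succ_self _) (by omega)
    rw [div_le_iff₀ hd]
    have h6 : (((hv - lu) * 1073741824 : ℕ) : ℝ) ≤
        ((((hv - lu) * 1073741824 / (v - u) + 1) * (v - u) : ℕ) : ℝ) := by exact_mod_cast h5.le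
    rw [Nat.cast_mul _ (v - u)] at h6
    refine le_trans ?_ h6
    rw [Nat.cast_mul]
    have h7 := tch_sub_le hv lu _ _ h4 h1
    have h8 : ((1073741824 : ℕ) : ℝ) = 1073741824 := by norm_num
    rw [h8]
    exact mul_le_mul_of_nonneg_right h7 (by norm_num)

theorem TCH_proved : S_CH := by
  intro φ x0 xc x1 l0 h0 lc hc l1 h1 h0c hc1 hconv hmono a1 a2 a3 a4 a5 a6 a x hx _
  have hK : (0 : ℝ) < 2 ^ 30 := by norm_num
  have hx0c : (x0 : ℝ) / 2 ^ 30 < (xc : ℝ) / 2 ^ 30 := by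
    refine div_lt_div_of_pos_right ?_ hK
    exact_mod_cast h0c
  have hxc1 : (xc : ℝ) / 2 ^ 30 < (x1 : ℝ) / 2 ^ 30 := by
    refine div_lt_div_of_pos_right ?_ hK
    exact_mod_cast hc1
  have m0 : (x0 : ℝ) / 2 ^ 30 ∈ Set.Icc ((x0 : ℝ) / 2 ^ 30) ((x1 : ℝ) / 2 ^ 30) :=
    ⟨le_refl _, (hx0c.trans hxc1).le⟩
  have mc : (xc : ℝ) / 2 ^ 30 ∈ Set.Icc ((x0 : ℝ) / 2 ^ 30) ((x1 : ℝ) / 2 ^ 30) :=
    ⟨hx0c.le, hxc1.le⟩
  have m1 : (x1 : ℝ) / 2 ^ 30 ∈ Set.Icc ((x0 : ℝ) / 2 ^ 30) ((x1 : ℝ) / 2 ^ 30) :=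
    ⟨(hx0c.trans hxc1).le, le_refl _⟩
  have f0c := hmono m0 mc hx0c.le
  have fc1 := hmono mc m1 hxc1.le
  have f0x := hmono m0 hx hx.1
  have fx1 := hmono hx m1 hx.2
  obtain ⟨sA1, sA2⟩ := tch_slope x0 xc l0 h0 lc hc _ _ h0c f0c a1 a2 a3 a4
  obtain ⟨sB1, sB2⟩ := tch_slope xc x1 lc hc l1 h1 _ _ hc1 fc1 a3 a4 a5 a6
  set P0 : ℝ := (x0 : ℝ) / 2 ^ 30 with hP0
  set Pc : ℝ := (xc : ℝ) / 2 ^ 30 with hPc
  set P1 : ℝ := (x1 : ℝ) / 2 ^ 30 with hP1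
  set lo : ℕ := min ((lc - h0) * 1073741824 / (xc - x0)) ((l1 - hc) * 1073741824 / (x1 - xc))
    with hlo
  set hi : ℕ := max ((hc - l0) * 1073741824 / (xc - x0) + 1)
    ((h1 - lc) * 1073741824 / (x1 - xc) + 1) with hhi
  have hlo1 : (lo : ℝ) ≤ (((lc - h0) * 1073741824 / (xc - x0) : ℕ) : ℝ) := by
    exact_mod_cast min_le_left _ _
  have hlo2 : (lo : ℝ) ≤ (((l1 - hc) * 1073741824 / (x1 - xc) : ℕ) : ℝ) := by
    exact_mod_cast min_le_right _ _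
  have hhi1 : (((hc - l0) * 1073741824 / (xc - x0) + 1 : ℕ) : ℝ) ≤ (hi : ℝ) := by
    exact_mod_cast le_max_left _ _
  have hhi2 : (((h1 - lc) * 1073741824 / (x1 - xc) + 1 : ℕ) : ℝ) ≤ (hi : ℝ) := by
    exact_mod_cast le_max_right _ _
  have hlohi : lo ≤ hi := by
    have : (lo : ℝ) ≤ (hi : ℝ) := ((hlo1.trans sA1).trans sA2).trans hhi1
    exact_mod_cast this
  refine ⟨?_, ?_, 0, ?_⟩
  · -- e
    show |φ Pc * 2 ^ 30 - (lc : ℝ)| ≤ ((hc - lc : ℕ) : ℝ)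
    rw [abs_of_nonneg (by linarith)]
    exact tch_sub_le hc lc _ _ a4 (le_refl _)
  · -- v
    show |φ x * 2 ^ 30 - (lc : ℝ)| ≤ ((max (h1 - lc) (lc - l0) : ℕ) : ℝ)
    rw [Nat.cast_max, abs_le]
    constructor
    · have h5 := tch_sub_le lc l0 (lc : ℝ) (φ x * 2 ^ 30) (le_refl _)
        (a1.trans (mul_le_mul_of_nonneg_right f0x hK.le))
      have h6 := le_max_right ((h1 - lc : ℕ) : ℝ) ((lc - l0 : ℕ) : ℝ)
      linarith
    · have h5 := tch_sub_le h1 lc (φ x * 2 ^ 30) (lc : ℝ)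
        ((mul_le_mul_of_nonneg_right fx1 hK.le).trans a6) (le_refl _)
      have h6 := le_max_left ((h1 - lc : ℕ) : ℝ) ((lc - l0 : ℕ) : ℝ)
      linarith
  · by_cases hxc : x = Pc
    · refine ⟨(lo : ℝ) / 2 ^ 30, ?_, ?_, ?_⟩
      · rw [hxc]
        ring
      · show |(0 : ℝ) * 2 ^ 30 - ((0 : ℤ) : ℝ)| ≤ ((0 : ℕ) : ℝ)
        simp
      · have h7 : (lo : ℝ) / 2 ^ 30 * 2 ^ 30 = (lo : ℝ) := div_mul_cancel₀ _ hK.ne'
        rw [h7]
        have := tch_mid lo hi hlohi (lo : ℝ) (le_refl _) (by exact_mod_cast hlohi)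
        exact this
    · set τ : ℝ := (φ x - φ Pc) / (x - Pc) with hτ
      have hne : x - Pc ≠ 0 := sub_ne_zero.mpr hxc
      have eA : (φ Pc - φ P0) / (Pc - P0) = (φ P0 - φ Pc) / (P0 - Pc) := by
        rw [← neg_sub (φ P0) (φ Pc), ← neg_sub P0 Pc, neg_div_neg_eq]
      rw [eA] at sA1 sA2
      set Aa : ℝ := (φ P0 - φ Pc) / (P0 - Pc) with hAa
      set Bb : ℝ := (φ P1 - φ Pc) / (P1 - Pc) with hBb
      have hbounds : min Aa Bb ≤ τ ∧ τ ≤ max Aa Bb := by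
        rcases hconv with hcv | hcv
        · have k1 := hcv.secant_mono mc m0 hx (ne_of_lt hx0c) hxc hx.1
          have k2 := hcv.secant_mono mc hx m1 hxc (ne_of_gt hxc1) hx.2
          exact ⟨(min_le_left _ _).trans k1, k2.trans (le_max_right _ _)⟩
        · have k1 := hcv.neg.secant_mono mc m0 hx (ne_of_lt hx0c) hxc hx.1
          have k2 := hcv.neg.secant_mono mc hx m1 hxc (ne_of_gt hxc1) hx.2
          simp only [Pi.neg_apply] at k1 k2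
          have r1 : (-φ P0 - -φ Pc) / (P0 - Pc) = -Aa := by
            rw [hAa]
            ring
          have r2 : (-φ x - -φ Pc) / (x - Pc) = -τ := by
            rw [hτ]
            ring
          have r3 : (-φ P1 - -φ Pc) / (P1 - Pc) = -Bb := by
            rw [hBb]
            ring
          rw [r1, r2] at k1
          rw [r2, r3] at k2
          exact ⟨(min_le_right _ _).trans (by linarith), le_trans (by linarith) (le_max_left _ _)⟩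
      have t1 : (lo : ℝ) ≤ τ * 2 ^ 30 := by
        rcases min_choice Aa Bb with h | h
        · rw [h] at hbounds
          have := mul_le_mul_of_nonneg_right hbounds.1 hK.le
          linarith
        · rw [h] at hbounds
          have := mul_le_mul_of_nonneg_right hbounds.1 hK.le
          linarith
      have t2 : τ * 2 ^ 30 ≤ (hi : ℝ) := by
        rcases max_choice Aa Bb with h | h
        · rw [h] at hbounds
          have := mul_le_mul_of_nonneg_right hbounds.2 hK.le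
          linarith
        · rw [h] at hbounds
          have := mul_le_mul_of_nonneg_right hbounds.2 hK.le
          linarith
      refine ⟨τ, ?_, ?_, ?_⟩
      · rw [hτ]
        field_simp
        ring
      · show |(0 : ℝ) * 2 ^ 30 - ((0 : ℤ) : ℝ)| ≤ ((0 : ℕ) : ℝ)
        simp
      · exact tch_mid lo hi hlohi (τ * 2 ^ 30) t1 t2

end Pool.MP324
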