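import Pool.Agent.H77.TL.ToolStm

/-!
Part TSER: the series `alf`, `bef`.
-/

set_option autoImplicit false

namespace Pool.MP324

/-- `∑ Y^j/(p(k+j)+1)` -/
noncomputable def tserg (p k : ℕ) (Y : ℝ) : ℝ := ∑' j : ℕ, Y ^ j / ((p : ℝ) * ((k : ℝ) + (j : ℝ)) + 1)

theorem tser_term (p k j : ℕ) (Y : ℝ) (h0 : 0 ≤ Y) :
    0 ≤ Y ^ j / ((p : ℝ) * ((k : ℝ) + (j : ℝ)) + 1) ∧
    Y ^ j / ((p : ℝ) * ((k : ℝ) + (j : ℝ)) + 1) ≤ Y ^ j := by
  have h1 : (0 : ℝ) ≤ (p : ℝ) * ((k : ℝ) + (j : ℝ)) := by positivity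
  refine ⟨by positivity, div_le_self (by positivity) (by linarith)⟩

theorem tser_summable (p k : ℕ) (Y : ℝ) (h0 : 0 ≤ Y) (h1 : Y < 1) :
    Summable fun j : ℕ => Y ^ j / ((p : ℝ) * ((k : ℝ) + (j : ℝ)) + 1) :=
  Summable.of_nonneg_of_le (fun j => (tser_term p k j Y h0).1) (fun j => (tser_term p k j Y h0).2)
    (summable_geometric_of_lt_one h0 h1)

theorem tser_nonneg (p k : ℕ) (Y : ℝ) (h0 : 0 ≤ Y) : 0 ≤ tserg p k Y :=
  tsum_nonneg fun j => (tser_term p k j Y h0).1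

theorem tser_le (p k : ℕ) (Y : ℝ) (h0 : 0 ≤ Y) (h1 : Y ≤ 1 / 2) : tserg p k Y ≤ 2 := by
  have h2 : Y < 1 := by linarith
  refine (Summable.tsum_le_tsum (fun j => (tser_term p k j Y h0).2) (tser_summable p k Y h0 h2)
    (summable_geometric_of_lt_one h0 h2)).trans ?_
  rw [tsum_geometric_of_lt_one h0 h2]
  rw [inv_le_comm₀ (by linarith) (by norm_num)]
  linarith

theorem tser_rec (p k : ℕ) (Y : ℝ) (h0 : 0 ≤ Y) (h1 : Y < 1) :
    tserg p k Y = 1 / ((p : ℝ) * (k : ℝ) + 1) + Y * tserg p (k + 1) Y := by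
  unfold tserg
  rw [(tser_summable p k Y h0 h1).tsum_eq_zero_add]
  congr 1
  · simp
  · rw [← tsum_mul_left]
    refine tsum_congr fun j => ?_
    push_cast
    have h2 : (p : ℝ) * ((k : ℝ) + ((j : ℝ) + 1)) + 1 = (p : ℝ) * ((k : ℝ) + 1 + (j : ℝ)) + 1 := by
      ring
    rw [h2, pow_succ]
    ring

theorem tser_dn_le (x : ℕ) : (dn x : ℝ) ≤ (x : ℝ) / 2 ^ 30 := by
  have h1 : dn x = x / 2 ^ 30 := Nat.shiftRight_eq_div_pow x 30
  rw [h1]
  refine Nat.cast_div_le.trans (le_of_eq ?_)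
  norm_num

theorem tser_le_dn (x : ℕ) : (x : ℝ) / 2 ^ 30 ≤ (dn x : ℝ) + 1 := by
  have h1 : dn x = x / 2 ^ 30 := Nat.shiftRight_eq_div_pow x 30
  rw [h1, div_le_iff₀ (by norm_num)]
  have h2 : x < (x / 2 ^ 30 + 1) * 2 ^ 30 := Nat.lt_mul_of_div_lt (Nat.lt_succ_self _) (by norm_num)
  have h3 : (x : ℝ) < (((x / 2 ^ 30 + 1) * 2 ^ 30 : ℕ) : ℝ) := by exact_mod_cast h2
  rw [Nat.cast_mul, Nat.cast_add] at h3
  refine h3.le.trans (le_of_eq ?_)
  norm_num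

theorem tser_lo (p Y : ℕ) (hY : Y ≤ 2 ^ 29) : ∀ n k : ℕ,
    (serLo p Y n k : ℝ) ≤ tserg p k ((Y : ℝ) / 2 ^ 30) * 2 ^ 30 := by
  have h0 : (0 : ℝ) ≤ (Y : ℝ) / 2 ^ 30 := by positivity
  have h1 : (Y : ℝ) / 2 ^ 30 < 1 := by
    rw [div_lt_one (by norm_num)]
    have : (Y : ℝ) ≤ ((2 ^ 29 : ℕ) : ℝ) := by exact_mod_cast hY
    refine this.trans_lt (by norm_num)
  intro n
  induction n with
  | zero =>
    intro k
    have h2 : (serLo p Y 0 k : ℝ) = 0 := by simp [serLo]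
    rw [h2]
    exact mul_nonneg (tser_nonneg p k _ h0) (by norm_num)
  | succ n ih =>
    intro k
    have h2 : serLo p Y (n + 1) k = 1073741824 / (p * k + 1) + dn (serLo p Y n (k + 1) * Y) := rfl
    rw [h2, tser_rec p k _ h0 h1, Nat.cast_add, add_mul]
    refine add_le_add ?_ ?_
    · refine Nat.cast_div_le.trans (le_of_eq ?_)
      push_cast
      rw [div_mul_eq_mul_div]
      norm_num
    · refine (tser_dn_le _).trans ?_
      rw [Nat.cast_mul]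
      have h3 := mul_le_mul_of_nonneg_right (ih (k + 1)) h0
      calc (serLo p Y n (k + 1) : ℝ) * (Y : ℝ) / 2 ^ 30 =
          (serLo p Y n (k + 1) : ℝ) * ((Y : ℝ) / 2 ^ 30) := by ring
        _ ≤ _ := h3
        _ = _ := by ring

theorem tser_hi (p Y : ℕ) (hY : Y ≤ 2 ^ 29) : ∀ n k : ℕ,
    tserg p k ((Y : ℝ) / 2 ^ 30) * 2 ^ 30 ≤ (serHi p Y n k : ℝ) := by
  have h0 : (0 : ℝ) ≤ (Y : ℝ) / 2 ^ 30 := by positivity
  have h12 : (Y : ℝ) / 2 ^ 30 ≤ 1 / 2 := by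
    rw [div_le_iff₀ (by norm_num)]
    have : (Y : ℝ) ≤ ((2 ^ 29 : ℕ) : ℝ) := by exact_mod_cast hY
    refine this.trans (by norm_num)
  have h1 : (Y : ℝ) / 2 ^ 30 < 1 := by linarith
  intro n
  induction n with
  | zero =>
    intro k
    have h2 : serHi p Y 0 k = 2147483648 := rfl
    rw [h2]
    have h3 := mul_le_mul_of_nonneg_right (tser_le p k _ h0 h12) (show (0 : ℝ) ≤ 2 ^ 30 by norm_num)
    refine h3.trans (by norm_num)
  | succ n ih =>
    intro k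
    have h2 : serHi p Y (n + 1) k =
      (1073741824 / (p * k + 1) + 2) + dn (serHi p Y n (k + 1) * Y) := rfl
    rw [h2, tser_rec p k _ h0 h1, Nat.cast_add, Nat.cast_add, add_mul]
    have h3 : 1 / ((p : ℝ) * (k : ℝ) + 1) * 2 ^ 30 ≤ ((1073741824 / (p * k + 1) : ℕ) : ℝ) + 1 := by
      have h4 : 1073741824 < (1073741824 / (p * k + 1) + 1) * (p * k + 1) :=
        Nat.lt_mul_of_div_lt (Nat.lt_succ_self _) (by omega)
      have h5 : ((1073741824 : ℕ) : ℝ) < (((1073741824 / (p * k + 1) + 1) * (p * k + 1) : ℕ) : ℝ) := by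
        exact_mod_cast h4
      rw [Nat.cast_mul, Nat.cast_add (1073741824 / (p * k + 1)) 1, Nat.cast_add (p * k) 1,
        Nat.cast_mul p k, Nat.cast_one] at h5
      have h6 : (0 : ℝ) < (p : ℝ) * (k : ℝ) + 1 := by positivity
      rw [div_mul_eq_mul_div, div_le_iff₀ h6]
      refine le_trans (le_of_eq ?_) h5.le
      norm_num
    have h4 : (Y : ℝ) / 2 ^ 30 * tserg p (k + 1) ((Y : ℝ) / 2 ^ 30) * 2 ^ 30 ≤
        (dn (serHi p Y n (k + 1) * Y) : ℝ) + 1 := by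
      refine le_trans ?_ (tser_le_dn _)
      rw [Nat.cast_mul]
      have h5 := mul_le_mul_of_nonneg_right (ih (k + 1)) h0
      calc (Y : ℝ) / 2 ^ 30 * tserg p (k + 1) ((Y : ℝ) / 2 ^ 30) * 2 ^ 30 =
          tserg p (k + 1) ((Y : ℝ) / 2 ^ 30) * 2 ^ 30 * ((Y : ℝ) / 2 ^ 30) := by ring
        _ ≤ _ := h5
        _ = _ := by ring
    have h5 : ((2 : ℕ) : ℝ) = 2 := by norm_num
    rw [h5]
    linarith

theorem tser_alf (Y : ℝ) : alf Y = tserg 2 0 Y := by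
  unfold alf tserg
  refine tsum_congr fun j => ?_
  norm_num

theorem tser_bef (Y : ℝ) : bef Y = tserg 1 0 Y := by
  unfold bef tserg
  refine tsum_congr fun j => ?_
  norm_num

theorem tser_mono (p : ℕ) : MonotoneOn (tserg p 0) (Set.Icc 0 (1 / 2 : ℝ)) := by
  intro x hx y hy hxy
  have hy0 : 0 ≤ y := hy.1
  refine Summable.tsum_le_tsum (fun j => ?_) (tser_summable p 0 x hx.1 (by linarith [hx.2]))
    (tser_summable p 0 y hy.1 (by linarith [hy.2]))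
  refine div_le_div_of_nonneg_right (pow_le_pow_left₀ hx.1 hxy j) ?_
  positivity

theorem tser_convex (p : ℕ) : ConvexOn ℝ (Set.Icc 0 (1 / 2 : ℝ)) (tserg p 0) := by
  refine ⟨convex_Icc _ _, ?_⟩
  intro x hx y hy a b ha hb hab
  have hz := convex_Icc (0 : ℝ) (1 / 2) hx hy ha hb hab
  have sx := tser_summable p 0 x hx.1 (by linarith [hx.2])
  have sy := tser_summable p 0 y hy.1 (by linarith [hy.2])
  have sz := tser_summable p 0 (a • x + b • y) hz.1 (by linarith [hz.2])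
  have h1 : a • tserg p 0 x + b • tserg p 0 y =
      ∑' j : ℕ, (a * (x ^ j / ((p : ℝ) * (((0 : ℕ) : ℝ) + (j : ℝ)) + 1)) +
        b * (y ^ j / ((p : ℝ) * (((0 : ℕ) : ℝ) + (j : ℝ)) + 1))) := by
    rw [(sx.mul_left a).tsum_add (sy.mul_left b), tsum_mul_left, tsum_mul_left]
    rfl
  rw [h1]
  refine Summable.tsum_le_tsum (fun j => ?_) sz ((sx.mul_left a).add (sy.mul_left b))
  have h2 := (convexOn_pow (𝕜 := ℝ) j).2 (show x ∈ Set.Ici (0 : ℝ) from hx.1)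
    (show y ∈ Set.Ici (0 : ℝ) from hy.1) ha hb hab
  have h3 : (0 : ℝ) < (p : ℝ) * (((0 : ℕ) : ℝ) + (j : ℝ)) + 1 := by positivity
  have h4 : a * (x ^ j / ((p : ℝ) * (((0 : ℕ) : ℝ) + (j : ℝ)) + 1)) +
      b * (y ^ j / ((p : ℝ) * (((0 : ℕ) : ℝ) + (j : ℝ)) + 1)) =
      (a * x ^ j + b * y ^ j) / ((p : ℝ) * (((0 : ℕ) : ℝ) + (j : ℝ)) + 1) := by ring
  rw [h4]
  exact div_le_div_of_nonneg_right h2 h3.le

theorem TSER_proved : S_SER := by
  refine ⟨fun Y hY n => ?_, fun Y hY n => ?_, ?_, ?_, ?_, ?_, ?_⟩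
  · rw [tser_alf]
    exact ⟨tser_lo 2 Y hY n 0, tser_hi 2 Y hY n 0⟩
  · rw [tser_bef]
    exact ⟨tser_lo 1 Y hY n 0, tser_hi 1 Y hY n 0⟩
  · have : alf = tserg 2 0 := funext tser_alf
    rw [this]
    exact tser_convex 2
  · have : alf = tserg 2 0 := funext tser_alf
    rw [this]
    exact tser_mono 2
  · have : bef = tserg 1 0 := funext tser_bef
    rw [this]
    exact tser_convex 1
  · have : bef = tserg 1 0 := funext tser_bef
    rw [this]
    exact tser_mono 1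
  · intro y hy0 hy1
    have habs : |y| < 1 := by rw [abs_of_nonneg hy0]; exact hy1
    constructor
    · rw [← (Real.hasSum_log_sub_log_of_abs_lt_one habs).tsum_eq]
      unfold alf
      rw [← tsum_mul_left]
      refine tsum_congr fun k => ?_
      rw [← pow_mul, pow_succ]
      ring
    · have habs2 : |y ^ 2| < 1 := by
        rw [abs_of_nonneg (by positivity)]
        nlinarith
      rw [← (Real.hasSum_pow_div_log_of_abs_lt_one habs2).tsum_eq]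
      unfold bef
      rw [← tsum_mul_left]
      refine tsum_congr fun k => ?_
      rw [pow_succ (y ^ 2) k]
      ring

end Pool.MP324
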